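import Mathlib
import Pool.Agent.Run7.h17.Multi

/-!
# The totient problem for almost all constants and almost all `n`

`q(n,k) = φ(k) + φ(n-k)/2 + 1`. For almost all pairs `(e, e')` of integers of the size of `p_q` the following holds for all
but few integers `n ≤ x`: the number of the primes `q` of the form `q(n,k)`, `1 ≤ k < n - 2`, for which `p_q - q + e` and
`p_q - q + e'` are both prime is the one predicted by the sieve model (`r = 2`, `F 0 = F 1 = X`, `θ = 1`). In general `F i`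
(`i < r`) are nonconstant integer polynomials, all the numbers `F i (p_q - q) + e i` shall be prime, and the weights
`θ n q` are arbitrary bounded numbers. Nothing is assumed about the distribution of the primes `q(n,k)`.

Used: the starting files `Pool.Agent.H373R2.T7` (sieve model, energies of polynomial values), `Pool.Agent.TH823.Fam` and
`Pool.Agent.H560R3.GB` (von Mangoldt's function along families of small energy). From Mathlib:
`ArithmeticFunction.vonMangoldt` is von Mangoldt's function `Λ`; `Finset.Icc a b` are the integers from `a` to `b`;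
`Int.toNat n` is `n` for `n ≥ 0` and `0` for `n < 0`; `Nat.nth Nat.Prime (m - 1)` is the `m`-th prime, `Nat.totient` is
Euler's function.
-/

set_option autoImplicit false

namespace Pool.Agent.Results.MP_61a569_nt.AlmostAllConstants

open Finset Polynomial

/-- Von Mangoldt's function on the integers; it is `0` at the integers `n ≤ 0`. -/
noncomputable def vM (n : ℤ) : ℝ := ArithmeticFunction.vonMangoldt n.toNat

/-- The sieve model: the positive integers without prime factors up to `z` have the weight `∏_{p ≤ z} (1 - 1 / p)⁻¹`,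
the other integers the weight `0`. -/
noncomputable def model (z : ℕ) (n : ℤ) : ℝ :=
  if 1 ≤ n ∧ ∀ p ∈ (Icc 1 z).filter Nat.Prime, ¬ p ∣ n.toNat then
    (∏ p ∈ (Icc 1 z).filter Nat.Prime, (1 - 1 / (p : ℝ)))⁻¹ else 0

/-- The `m`-th prime. -/
noncomputable def pr (m : ℕ) : ℕ := Nat.nth Nat.Prime (m - 1)

/-- `q n k = φ(k) + φ(n - k) / 2 + 1`. -/
def q (n k : ℕ) : ℕ := Nat.totient k + Nat.totient (n - k) / 2 + 1

/-- The set of the primes of the form `q n k`, `1 ≤ k < n - 2`. -/
def Q (n : ℕ) : Finset ℕ := ((Ico 1 (n - 2)).image (q n)).filter Nat.Prime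

/-- The sum of `θ(n, q) ∏_i Λ(F i (p_q - q) + c i)` over the primes `q` of the form `q(n, k)`. -/
noncomputable def primeSum {r : ℕ} (θ : ℕ → ℕ → ℝ) (F : Fin r → ℤ[X]) (c : Fin r → ℤ) (n : ℕ) : ℝ :=
  ∑ t ∈ Q n, θ n t * ∏ i, vM ((F i).eval ((pr t : ℤ) - t) + c i)

/-- The sum of `θ(n, q) ∏_i model(F i (p_q - q) + c i)` over the primes `q` of the form `q(n, k)`. -/
noncomputable def modelSum {r : ℕ} (z : ℕ) (θ : ℕ → ℕ → ℝ) (F : Fin r → ℤ[X]) (c : Fin r → ℤ) (n : ℕ) : ℝ :=
  ∑ t ∈ Q n, θ n t * ∏ i, model z ((F i).eval ((pr t : ℤ) - t) + c i)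

/-- For all but at most `y` of the integers `n` from `1` to `x` the two sums differ by at most `y`. -/
def GoodConstants {r : ℕ} (x z : ℕ) (θ : ℕ → ℕ → ℝ) (F : Fin r → ℤ[X]) (y : ℝ) (c : Fin r → ℤ) : Prop :=
  (((Icc 1 x).filter (fun n : ℕ => y < |primeSum θ F c n - modelSum z θ F c n|)).card : ℝ) ≤ y

lemma lam_eq (n : ℤ) : Pool.Agent.H373R2.T7.lamI n = vM n := by
  unfold Pool.Agent.H373R2.T7.lamI vM
  split_ifs with h
  · rfl
  · have : n.toNat = 0 := Int.toNat_of_nonpos (by omega)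
    rw [this]
    simp

lemma lamz_eq (z : ℕ) (n : ℤ) : Pool.Agent.H373R2.T7.lamzI z n = model z n := by
  unfold Pool.Agent.H373R2.T7.lamzI Pool.Agent.H373R2.T7.lamz model
  by_cases h : 1 ≤ n
  · rw [if_pos h]
    by_cases h2 : ∀ p ∈ Pool.Agent.H373R2.T7.pz z, ¬ p ∣ n.toNat
    · rw [if_pos h2, if_pos ⟨h, h2⟩]
      rfl
    · rw [if_neg h2, if_neg (fun h3 => h2 h3.2)]
  · rw [if_neg h, if_neg (fun h3 => h h3.1)]

lemma Q_mem (n t : ℕ) (h : t ∈ Q n) : 2 ≤ t ∧ t ≤ n + 1 := by
  unfold Q at h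
  rw [mem_filter, mem_image] at h
  obtain ⟨⟨k, hk, rfl⟩, hp⟩ := h
  rw [mem_Ico] at hk
  refine ⟨hp.two_le, ?_⟩
  unfold q
  have h1 := Nat.totient_le k
  have h2 := Nat.totient_le (n - k)
  omega

/-- the arguments: `u t = p_{t+1} - (t+1)` -/
noncomputable def arg (t : ℕ) : ℕ := Nat.nth Nat.Prime t - (t + 1)

lemma nth_mono : StrictMono (Nat.nth Nat.Prime) := Nat.nth_strictMono Nat.infinite_setOfPred_prime

lemma nth_ge (t : ℕ) : t + 2 ≤ Nat.nth Nat.Prime t := by
  have h : Nat.nth Nat.Prime 0 + t ≤ Nat.nth Nat.Prime t := by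
    induction t with
    | zero => simp
    | succ m ih =>
      have := nth_mono (Nat.lt_succ_self m)
      have e : m.succ = m + 1 := rfl
      rw [e] at this
      omega
  have h2 := (Nat.prime_nth_prime 0).two_le
  omega

lemma arg_step (t : ℕ) (ht : 1 ≤ t) : arg t < arg (t + 1) := by
  have h1 := nth_ge t
  have h2 := nth_ge (t + 1)
  have h3 : Nat.nth Nat.Prime t < Nat.nth Nat.Prime (t + 1) :=
    nth_mono (Nat.lt_succ_self t)
  have h4 : Nat.nth Nat.Prime t ≠ Nat.nth Nat.Prime (t + 1) - 1 := by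
    intro h
    have p1 := Nat.prime_nth_prime t
    have p2 := Nat.prime_nth_prime (t + 1)
    have h5 : Nat.nth Nat.Prime t + 1 = Nat.nth Nat.Prime (t + 1) := by omega
    have h6 : 2 < Nat.nth Nat.Prime t := by
      have e1 := nth_mono (show 0 < t by omega)
      have e2 := (Nat.prime_nth_prime 0).two_le
      exact lt_of_le_of_lt e2 e1
    rcases p1.eq_two_or_odd with h7 | h7
    · omega
    · rcases p2.eq_two_or_odd with h8 | h8
      · omega
      · omega
  unfold arg
  omega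

lemma arg_mono (s t : ℕ) (hs : 1 ≤ s) (hst : s < t) : arg s < arg t := by
  induction t with
  | zero => omega
  | succ m ih =>
    rcases Nat.lt_succ_iff_lt_or_eq.mp hst with h | h
    · exact (ih h).trans (arg_step m (by omega))
    · rw [h]
      exact arg_step m (by omega)

lemma arg_inj (x : ℕ) : Set.InjOn arg (Icc 1 x : Finset ℕ) := by
  intro s hs t ht h
  rw [mem_coe, mem_Icc] at hs ht
  rcases lt_trichotomy s t with h1 | h1 | h1
  · have := arg_mono s t hs.1 h1
    omega
  · exact h1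
  · have := arg_mono t s ht.1 h1
    omega

open Classical in
/-- **The totient problem for almost all constants and almost all `n`.** -/
theorem result (r : ℕ) (F : Fin r → ℤ[X]) (hF : ∀ i, 1 ≤ (F i).natDegree) (κ U : ℕ) :
    ∃ B₀ : ℕ, ∀ E : ℕ, ∃ x₀ : ℕ, ∀ x : ℕ, x₀ ≤ x → ∀ M : Fin r → ℕ,
    (∀ i, (x : ℝ) ^ (F i).natDegree ≤ Real.log x ^ κ * M i ∧ (M i : ℝ) ≤ Real.log x ^ κ * x ^ (F i).natDegree) →
    ∀ a : Fin r → ℤ, (∀ i, |(a i : ℝ)| ≤ Real.log x ^ κ * M i) →
    ∀ z : ℕ, Real.log x ^ B₀ ≤ z → (z : ℝ) ≤ Real.log x ^ E →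
    ∀ θ : ℕ → ℕ → ℝ, (∀ n t, |θ n t| ≤ Real.log x ^ κ) →
    (((Fintype.piFinset (fun i => Icc 1 (M i))).filter
      (fun c : Fin r → ℕ => ¬ GoodConstants x z θ F (x / Real.log x ^ U) (fun i => a i + c i))).card : ℝ) ≤
      (∏ i, (M i : ℝ)) / Real.log x ^ U := by
  obtain ⟨B0, hB0⟩ := Pool.Agent.Run7.h17.L2.seq_family r F hF (2 * κ + 5) U
  refine ⟨B0, fun E => ?_⟩
  obtain ⟨n1, h1⟩ := hB0 E
  obtain ⟨n2, h2⟩ := Pool.Agent.Run7.h17.Pos.pn_bound
  obtain ⟨n3, h3⟩ := Pool.Agent.H373R2.T7.ev_L' 4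
  refine ⟨n1 + n2 + n3 + 2, fun x hx M hM a ha z hz1 hz2 θ hθ => ?_⟩
  have hL4 := h3 x (by omega)
  have hL1 : 1 ≤ Real.log x := by linarith
  have hx0 : (0 : ℝ) < x := by exact_mod_cast (by omega : 0 < x)
  have hx1 : (1 : ℝ) ≤ x := by exact_mod_cast (by omega : 1 ≤ x)
  have hκ : Real.log x ^ κ ≤ Real.log x ^ (2 * κ + 5) := pow_le_pow_right₀ hL1 (by omega)
  have hargb : ∀ t ∈ Icc 1 x, 1 ≤ arg t ∧ (arg t : ℝ) ≤ Real.log x ^ (2 * κ + 5) * x := by
    intro t ht
    rw [mem_Icc] at ht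
    have g1 := nth_ge t
    refine ⟨by unfold arg; omega, ?_⟩
    have g2 := h2 (x + 1) (by omega) (t + 1) (by rw [mem_Icc]; omega)
    have g3 : (arg t : ℝ) ≤ (Nat.nth Nat.Prime t : ℝ) := by
      unfold arg
      exact Nat.cast_le.mpr (Nat.sub_le _ _)
    have g4 : (Nat.nth Nat.Prime t : ℝ) ≤ Real.log ((x + 1 : ℕ) : ℝ) ^ 2 * ((x + 1 : ℕ) : ℝ) := g2
    have g5 : Real.log ((x + 1 : ℕ) : ℝ) ≤ 2 * Real.log x := by
      have : ((x + 1 : ℕ) : ℝ) ≤ x * x := by
        push_cast
        have h2x : (2 : ℝ) ≤ x := by exact_mod_cast (by omega : 2 ≤ x)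
        nlinarith
      calc Real.log ((x + 1 : ℕ) : ℝ) ≤ Real.log (x * x) := Real.log_le_log (by positivity) this
        _ = 2 * Real.log x := by rw [Real.log_mul hx0.ne' hx0.ne']; ring
    have g6 : 0 ≤ Real.log ((x + 1 : ℕ) : ℝ) := Real.log_nonneg (by push_cast; linarith)
    have g7 : ((x + 1 : ℕ) : ℝ) ≤ 2 * x := by push_cast; linarith
    calc (arg t : ℝ) ≤ Real.log ((x + 1 : ℕ) : ℝ) ^ 2 * ((x + 1 : ℕ) : ℝ) := g3.trans g4
      _ ≤ (2 * Real.log x) ^ 2 * (2 * x) :=
          mul_le_mul (pow_le_pow_left₀ g6 g5 2) g7 (Nat.cast_nonneg _) (by positivity)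
      _ = (2 * (4 * Real.log x ^ 2)) * x := by ring
      _ ≤ (Real.log x * (Real.log x * Real.log x ^ 2)) * x := by
          apply mul_le_mul_of_nonneg_right _ hx0.le
          have : 0 ≤ Real.log x ^ 2 := by positivity
          apply mul_le_mul (by linarith) _ (by positivity) (by linarith)
          exact mul_le_mul_of_nonneg_right hL4 this
      _ = Real.log x ^ 4 * x := by ring
      _ ≤ _ := mul_le_mul_of_nonneg_right (pow_le_pow_right₀ hL1 (by omega)) hx0.le
  have key := h1 x (by omega) M (fun i => ⟨(hM i).1.trans (mul_le_mul_of_nonneg_right hκ (Nat.cast_nonneg _)),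
      (hM i).2.trans (mul_le_mul_of_nonneg_right hκ (by positivity))⟩) a
    (fun i => by push_cast; exact (ha i).trans (mul_le_mul_of_nonneg_right hκ (Nat.cast_nonneg _)))
    (fun _ => arg) (fun _ => hargb) (fun _ => arg_inj x) z hz1 hz2 (Icc 1 x) x (by rw [Nat.card_Icc]; simp) hx0
    (fun n t => if t + 1 ∈ Q n then θ n (t + 1) else 0) (fun n _ => by
      calc ∑ t ∈ Icc 1 x, (if t + 1 ∈ Q n then θ n (t + 1) else 0) ^ 2
          ≤ ∑ t ∈ Icc 1 x, (Real.log x ^ κ) ^ 2 := by
            refine sum_le_sum fun t _ => ?_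
            split_ifs
            · rw [← sq_abs]
              exact pow_le_pow_left₀ (abs_nonneg _) (hθ _ _) _
            · rw [zero_pow two_ne_zero]
              positivity
        _ = x * (Real.log x ^ κ) ^ 2 := by rw [sum_const, nsmul_eq_mul, Nat.card_Icc]; simp
        _ ≤ _ := by
            rw [← pow_mul]
            exact mul_le_mul_of_nonneg_left (pow_le_pow_right₀ hL1 (by omega)) hx0.le)
  refine le_trans (Nat.cast_le.mpr (card_le_card ?_)) key
  intro c hc
  rw [mem_filter] at hc ⊢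
  refine ⟨hc.1, fun hgood => hc.2 ?_⟩
  have e1 : ∀ n ∈ Icc 1 x, primeSum θ F (fun i => a i + c i) n - modelSum z θ F (fun i => a i + c i) n =
      ∑ t ∈ Icc 1 x, (if t + 1 ∈ Q n then θ n (t + 1) else 0) *
        Pool.Agent.Run7.h17.PB.pd z (fun i t => a i + (F i).eval (arg t : ℤ)) c t := by
    intro n hn
    rw [mem_Icc] at hn
    have f1 : Q n = ((Icc 1 x).filter (fun t => t + 1 ∈ Q n)).image (fun t => t + 1) := by
      ext t
      rw [mem_image]
      constructor
      · intro h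
        have := Q_mem n t h
        refine ⟨t - 1, ?_, by omega⟩
        rw [mem_filter, mem_Icc, show t - 1 + 1 = t by omega]
        exact ⟨by omega, h⟩
      · rintro ⟨s, hs, rfl⟩
        exact (mem_filter.mp hs).2
    unfold primeSum modelSum
    rw [← sum_sub_distrib]
    conv_lhs => rw [f1]
    rw [sum_image (fun s _ t _ h => by have h' : s + 1 = t + 1 := h; omega), sum_filter]
    refine sum_congr rfl fun t ht => ?_
    split_ifs with h
    · rw [← mul_sub]
      congr 1
      have hcast : ((pr (t + 1) : ℕ) : ℤ) - ((t + 1 : ℕ) : ℤ) = ((arg t : ℕ) : ℤ) := by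
        have := nth_ge t
        unfold pr arg
        rw [show t + 1 - 1 = t by omega]
        omega
      unfold Pool.Agent.Run7.h17.PB.pd
      rw [hcast]
      congr 1
      · refine prod_congr rfl fun i _ => ?_
        rw [← lam_eq]
        congr 1
        ring
      · refine prod_congr rfl fun i _ => ?_
        rw [← lamz_eq]
        congr 1
        ring
    · rw [zero_mul]
  unfold GoodConstants
  refine le_trans (Nat.cast_le.mpr (card_le_card ?_)) hgood
  intro n hn
  rw [mem_filter] at hn ⊢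
  refine ⟨hn.1, ?_⟩
  rw [← e1 n hn.1]
  exact hn.2

end Pool.Agent.Results.MP_61a569_nt.AlmostAllConstants
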