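import Pool.Agent.Run7.h504.SQ3

/-!
# The totient problem with constants from thin families of small additive energy

`q(n,k) = φ(k) + φ(n-k)/2 + 1`. The question asks for a prime `q = q(n,k)` with `p_q - q - 1` and `p_q - q + 1` prime. Here the
two constants are members `s 0 (m 0)`, `s 1 (m 1)` of arbitrary THIN families of integers (with `x ^ (1/h)` members, for
instance the values of polynomials of degree `h` or their translates), of small additive energy of some bounded order. For
almost all the members the number of the `q = q(n,k)` with both `p_q - q + s 0 (m 0)` and `p_q - q + s 1 (m 1)` prime is the one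
of the sieve model, for all but few `n` of ANY given set of integers up to `x`; in particular, for any given `n`, and for all
`n` in any given set with at most a power of `log x` elements. The weights `θ n q` are arbitrary, so that further
conditions on `q`, such as `p_q - q - 1` prime, can be prescribed.

Used from the starting files: the first moments of correlations over families of small energy (`H373R2.T7`, the method of
`H560R3.GB`), the additive energy of polynomial values (`H373R2.T7.energy_poly`). `p_q - q` is handled as in the hand-in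
`AlmostAllConstants` of helper17, where the constants run through full intervals.
-/

set_option autoImplicit false

namespace Pool.Agent.Results.MP_61a569_nt.LowEnergyConstants

open Finset

/-- Von Mangoldt's function on the integers; it is `0` at the integers `n ≤ 0`. -/
noncomputable def vM (n : ℤ) : ℝ := ArithmeticFunction.vonMangoldt n.toNat

/-- The sieve model: the positive integers without prime factors up to `z` have the weight `∏_{p ≤ z} (1 - 1 / p)⁻¹`,
the other integers the weight `0`. -/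
noncomputable def model (z : ℕ) (n : ℤ) : ℝ :=
  if 1 ≤ n ∧ ∀ p ∈ (Icc 1 z).filter Nat.Prime, ¬ p ∣ n.toNat then
    (∏ p ∈ (Icc 1 z).filter Nat.Prime, (1 - 1 / (p : ℝ)))⁻¹ else 0

/-- The `m`-th prime. -/
noncomputable def pr (m : ℕ) : ℕ := Nat.nth Nat.Prime (m - 1)

/-- `q n k = φ(k) + φ(n - k) / 2 + 1`. -/
def q (n k : ℕ) : ℕ := Nat.totient k + Nat.totient (n - k) / 2 + 1

/-- The set of the primes of the form `q n k`, `1 ≤ k < n - 2`. -/
def Q (n : ℕ) : Finset ℕ := ((Ico 1 (n - 2)).image (q n)).filter Nat.Prime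

/-- The additive energy of order `p` of the family `s 1, ..., s y`: the number of the solutions of
`s (u 1) + ... + s (u p) = s (v 1) + ... + s (v p)`. -/
def energy (p y : ℕ) (s : ℕ → ℤ) : ℕ :=
  (((Fintype.piFinset fun _ : Fin p => Icc 1 y) ×ˢ (Fintype.piFinset fun _ : Fin p => Icc 1 y)).filter
    (fun q => ∑ i, s (q.1 i) = ∑ i, s (q.2 i))).card

/-- The integers `s 1, ..., s y` are at most `x (log x) ^ κ` in absolute value, and their additive energy of some order
`p ≤ h` is at most `(log x) ^ κ y ^ (2 p) / x`. -/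
def Spread (h κ x y : ℕ) (s : ℕ → ℤ) : Prop :=
  (∀ m ∈ Icc 1 y, |(s m : ℝ)| ≤ Real.log x ^ κ * x) ∧
    ∃ p ≤ h, (energy p y s : ℝ) * x ≤ Real.log x ^ κ * (y : ℝ) ^ (2 * p)

/-- The sum of `θ(n, q) ∏_i Λ(α i (p_q - q) + c i)` over the primes `q` of the form `q(n, k)`. -/
noncomputable def primeSum {r : ℕ} (θ : ℕ → ℕ → ℝ) (α : Fin r → ℕ) (c : Fin r → ℤ) (n : ℕ) : ℝ :=
  ∑ t ∈ Q n, θ n t * ∏ i, vM (α i * ((pr t : ℤ) - t) + c i)

/-- The sum of `θ(n, q) ∏_i model(α i (p_q - q) + c i)` over the primes `q` of the form `q(n, k)`. -/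
noncomputable def modelSum {r : ℕ} (z : ℕ) (θ : ℕ → ℕ → ℝ) (α : Fin r → ℕ) (c : Fin r → ℤ) (n : ℕ) : ℝ :=
  ∑ t ∈ Q n, θ n t * ∏ i, model z (α i * ((pr t : ℤ) - t) + c i)

/-- The two sums differ by at most `x / (log x) ^ U` for all the `n ∈ 𝒩` but at most `|𝒩| / (log x) ^ U`. -/
def Good {r : ℕ} (U x z : ℕ) (𝒩 : Finset ℕ) (θ : ℕ → ℕ → ℝ) (α : Fin r → ℕ) (c : Fin r → ℤ) : Prop :=
  ((𝒩.filter (fun n : ℕ => x / Real.log x ^ U < |primeSum θ α c n - modelSum z θ α c n|)).card : ℝ) ≤
    𝒩.card / Real.log x ^ U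

open Classical in
/-- The number of the vectors `m` with `1 ≤ m i ≤ y i` for all `i` which have the property `E`. -/
noncomputable def num {r : ℕ} (y : Fin r → ℕ) (E : (Fin r → ℕ) → Prop) : ℝ :=
  (((Fintype.piFinset fun i => Icc 1 (y i)).filter E).card : ℝ)

lemma num_eq {r : ℕ} (y : Fin r → ℕ) (E : (Fin r → ℕ) → Prop) [DecidablePred E] :
    num y E = (((Fintype.piFinset fun i => Icc 1 (y i)).filter E).card : ℝ) := by
  unfold num
  congr

lemma lam_eq (n : ℤ) : Pool.Agent.H373R2.T7.lamI n = vM n := by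
  unfold Pool.Agent.H373R2.T7.lamI vM
  split_ifs with h
  · rfl
  · have : n.toNat = 0 := Int.toNat_of_nonpos (by omega)
    rw [this]
    simp

lemma lamz_eq (z : ℕ) (n : ℤ) : Pool.Agent.H373R2.T7.lamzI z n = model z n := by
  unfold Pool.Agent.H373R2.T7.lamzI Pool.Agent.H373R2.T7.lamz model
  by_cases h : 1 ≤ n
  · rw [if_pos h]
    by_cases h2 : ∀ p ∈ Pool.Agent.H373R2.T7.pz z, ¬ p ∣ n.toNat
    · rw [if_pos h2, if_pos ⟨h, h2⟩]
      rfl
    · rw [if_neg h2, if_neg (fun h3 => h2 h3.2)]
  · rw [if_neg h, if_neg (fun h3 => h h3.1)]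

lemma energy_eq (p y : ℕ) (s : ℕ → ℤ) : energy p y s = Pool.Agent.H373R2.T7.energy p y s := rfl

lemma Q_mem (n t : ℕ) (h : t ∈ Q n) : 2 ≤ t ∧ t ≤ n + 1 := by
  unfold Q at h
  rw [mem_filter, mem_image] at h
  obtain ⟨⟨k, hk, rfl⟩, hp⟩ := h
  rw [mem_Ico] at hk
  refine ⟨hp.two_le, ?_⟩
  unfold q
  have h1 := Nat.totient_le k
  have h2 := Nat.totient_le (n - k)
  omega

/-- **The totient problem with constants from thin families.** Let `r`, `h`, `κ`, `U` be fixed (`r = 2` in the question).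
(1) There is `B₀` such that for every `E` and all large `x` the following holds. Let `s i 1, ..., s i (y i)`, `i < r`, be
families of integers of absolute value at most `x (log x) ^ κ`, the additive energy of each of which, of some order `p ≤ h`,
is at most `(log x) ^ κ y ^ (2 p) / x`, `y = y i`. Let `1 ≤ α i ≤ (log x) ^ κ`, let `(log x) ^ B₀ ≤ z ≤ (log x) ^ E`, let
`|θ(n, q)| ≤ (log x) ^ κ` be arbitrary weights and let `𝒩` be an arbitrary set of integers `n ≤ x`. For all the vectors `m`
with `1 ≤ m i ≤ y i` but at most the proportion `1 / (log x) ^ U` of them: for all `n ∈ 𝒩` but at most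
`|𝒩| / (log x) ^ U` of them, the sums of `θ(n, q) ∏ i, Λ(α i (p_q - q) + s i (m i))` and of
`θ(n, q) ∏ i, Λ_z(α i (p_q - q) + s i (m i))` over the different primes `q` of the form `φ(k) + φ(n-k)/2 + 1`, `1 ≤ k < n - 2`,
differ by at most `x / (log x) ^ U`.
(2) For every integer polynomial `f` of degree `d ≥ 1` with a positive leading coefficient there is an order `h` such that
for all large `x` and all `y`, for which `y ^ d` and `x` differ at most by the factor `(log x) ^ κ`, and all integers `c` with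
`|c| ≤ x (log x) ^ κ`, the families `c + f(m)` and `c - f(m)`, `m ≤ y`, satisfy the condition of (1), with `κ + 1` instead
of `κ`. -/
theorem result (r h κ U : ℕ) :
    (∃ B₀ : ℕ, ∀ E : ℕ, ∃ x₀ : ℕ, ∀ x : ℕ, x₀ ≤ x → ∀ (y : Fin r → ℕ) (s : Fin r → ℕ → ℤ),
      (∀ i, Spread h κ x (y i) (s i)) → ∀ α : Fin r → ℕ, (∀ i, 1 ≤ α i ∧ (α i : ℝ) ≤ Real.log x ^ κ) →
      ∀ z : ℕ, Real.log x ^ B₀ ≤ z → (z : ℝ) ≤ Real.log x ^ E →
      ∀ 𝒩 : Finset ℕ, 𝒩 ⊆ Icc 1 x → ∀ θ : ℕ → ℕ → ℝ, (∀ n t, |θ n t| ≤ Real.log x ^ κ) →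
      num y (fun m => ¬ Good U x z 𝒩 θ α (fun i => s i (m i))) ≤ (∏ i, (y i : ℝ)) / Real.log x ^ U) ∧
    ∀ f : Polynomial ℤ, 1 ≤ f.natDegree → 0 < f.leadingCoeff → ∃ h' x₀ : ℕ, ∀ x : ℕ, x₀ ≤ x → ∀ y : ℕ, 1 ≤ y →
      (x : ℝ) ≤ Real.log x ^ κ * (y : ℝ) ^ f.natDegree → (y : ℝ) ^ f.natDegree ≤ Real.log x ^ κ * x →
      ∀ c : ℤ, |(c : ℝ)| ≤ Real.log x ^ κ * x →
      Spread h' (κ + 1) x y (fun m => c + f.eval (m : ℤ)) ∧ Spread h' (κ + 1) x y (fun m => c - f.eval (m : ℤ)) := by
  classical
  refine ⟨?_, fun f hd hl => ?_⟩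
  · obtain ⟨B0, hB0⟩ := Pool.Agent.Run7.h504.SQ.many r h (κ + 4) U
    refine ⟨B0, fun E => ?_⟩
    obtain ⟨n1, h1⟩ := hB0 E
    obtain ⟨n2, h2⟩ := Pool.Agent.Run7.h504.SQ.arg_bound
    obtain ⟨n3, h3⟩ := Pool.Agent.H373R2.T7.ev_L' 1
    refine ⟨n1 + n2 + n3 + 2, fun x hx y s hs α hα z hz1 hz2 𝒩 h𝒩 θ hθ => ?_⟩
    have hL1 := h3 x (by omega)
    have hx0 : (0 : ℝ) < x := by exact_mod_cast (by omega : 0 < x)
    have hκ : Real.log x ^ κ ≤ Real.log x ^ (κ + 4) := pow_le_pow_right₀ hL1 (by omega)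
    have hs' : ∀ i, Pool.Agent.Run7.h504.SQ.LowX h (κ + 4) x (y i) (s i) := fun i =>
      Pool.Agent.Run7.h504.SQ.LowX_mono (by omega) hL1 (hs i)
    have key := h1 x (by omega) y s hs' z hz1 hz2 (Icc 1 x)
      (fun i t => α i * Pool.Agent.Run7.h504.SQ.arg t) (fun i a ha b hb hab =>
        Pool.Agent.Run7.h504.SQ.arg_inj x ha hb (Nat.eq_of_mul_eq_mul_left (hα i).1 hab))
      (fun i t ht => by
        obtain ⟨q1, q2⟩ := h2 x (by omega) t ht
        refine ⟨Nat.mul_pos (hα i).1 q1, ?_⟩
        push_cast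
        calc (α i : ℝ) * (Pool.Agent.Run7.h504.SQ.arg t : ℝ) ≤ Real.log x ^ κ * (Real.log x ^ 4 * x) :=
              mul_le_mul (hα i).2 q2 (Nat.cast_nonneg _) (by positivity)
          _ = Real.log x ^ (κ + 4) * x := by rw [pow_add]; ring)
      𝒩 (fun n t => if t + 1 ∈ Q n then θ n (t + 1) else 0) (fun n _ t _ => by
        split_ifs
        · exact (hθ _ _).trans hκ
        · rw [abs_zero]
          positivity)
    refine le_trans ?_ key
    rw [num_eq, Pool.Agent.Run7.h504.RM.ct_eq]
    apply Nat.cast_le.2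
    apply card_le_card
    intro m hm
    obtain ⟨hm1, hm2⟩ := Finset.mem_filter.1 hm
    refine Finset.mem_filter.2 ⟨hm1, ?_⟩
    by_contra hcon
    apply hm2
    rw [not_lt] at hcon
    unfold Good
    refine le_trans (Nat.cast_le.2 (card_le_card ?_)) hcon
    intro n hn
    rw [mem_filter] at hn ⊢
    refine ⟨hn.1, ?_⟩
    have hnx := mem_Icc.1 (h𝒩 hn.1)
    have e1 : primeSum θ α (fun i => s i (m i)) n - modelSum z θ α (fun i => s i (m i)) n =
        Pool.Agent.Run7.h504.SQ.dif z (Icc 1 x) (fun i t => α i * Pool.Agent.Run7.h504.SQ.arg t)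
          (fun t => if t + 1 ∈ Q n then θ n (t + 1) else 0) (fun i => s i (m i)) := by
      have f1 : Q n = ((Icc 1 x).filter (fun t => t + 1 ∈ Q n)).image (fun t => t + 1) := by
        ext t
        rw [mem_image]
        constructor
        · intro h
          have := Q_mem n t h
          refine ⟨t - 1, ?_, by omega⟩
          rw [mem_filter, mem_Icc, show t - 1 + 1 = t by omega]
          exact ⟨by omega, h⟩
        · rintro ⟨s, hs, rfl⟩
          exact (mem_filter.mp hs).2
      unfold primeSum modelSum Pool.Agent.Run7.h504.SQ.dif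
      rw [← sum_sub_distrib]
      conv_lhs => rw [f1]
      rw [sum_image (fun s _ t _ h => by have h' : s + 1 = t + 1 := h; omega), sum_filter]
      refine sum_congr rfl fun t ht => ?_
      beta_reduce
      split_ifs with h
      · rw [← mul_sub]
        congr 1
        have hcast : ((pr (t + 1) : ℕ) : ℤ) - ((t + 1 : ℕ) : ℤ) = ((Pool.Agent.Run7.h504.SQ.arg t : ℕ) : ℤ) := by
          have := Pool.Agent.Run7.h504.SQ.nth_ge t
          unfold pr Pool.Agent.Run7.h504.SQ.arg
          rw [show t + 1 - 1 = t by omega]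
          omega
        rw [hcast]
        congr 1
        · refine prod_congr rfl fun i _ => ?_
          rw [← lam_eq]
          congr 1
        · refine prod_congr rfl fun i _ => ?_
          rw [← lamz_eq]
          congr 1
      · rw [zero_mul]
    rw [← e1]
    exact hn.2
  · obtain ⟨h', x0, hh⟩ := Pool.Agent.Run7.h504.SQ.low_poly f hd hl κ
    refine ⟨h', x0, fun x hx y hy h1 h2 c hc => ⟨?_, ?_⟩⟩
    · have e := hh x hx y hy h1 h2 1 c (Or.inl rfl) hc
      simp only [one_mul] at e
      exact e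
    · have e := hh x hx y hy h1 h2 (-1) c (Or.inr rfl) hc
      have e2 : (fun m : ℕ => c + -1 * f.eval (m : ℤ)) = fun m : ℕ => c - f.eval (m : ℤ) := by
        funext m
        ring
      rw [e2] at e
      exact e

end Pool.Agent.Results.MP_61a569_nt.LowEnergyConstants
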