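import Pool.Agent.Run7.h524.MG.App2

/-!
# `p_q - q + a`, `p_q - q + b` both prime: a Poisson law in random short lists of `q`, for instance of primes `q(n, k)`

Project MK of this run (primes in intervals of length `N ^ (1/3) log ^ C N` with additive characters). Own library: the
simultaneous mixed Poisson law for systems of shifted primes whose arguments are injections on an arbitrary set of parameters.
New: the application to the arguments `p_q - q`.

From Mathlib: `Nat.nth Nat.Prime i` is the prime number `i + 1` in increasing order, starting with `Nat.nth Nat.Prime 0 = 2`;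
`Nat.totient` is Euler's function.
-/

set_option autoImplicit false

open Finset Polynomial

namespace Pool.Agent.Results.MP_61a569_nt.PoissonLawTotientSums

/-- The `i`-th prime; `p 1 = 2`. -/
noncomputable def p (i : ℕ) : ℕ := Nat.nth Nat.Prime (i - 1)

/-- The primes of the form `φ(k) + φ(n - k) / 2 + 1` with `1 ≤ k < n - 2`. -/
def sums (n : ℕ) : Finset ℕ :=
  ((Ico 1 (n - 2)).image fun k => k.totient + (n - k).totient / 2 + 1).filter Nat.Prime

open Classical in
/-- The number of the members `q` of the list `q_1, ..., q_m` for which `p_q - q + a_0` and `p_q - q + a_1` are primes. -/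
noncomputable def hits {S : Finset ℕ} {m : ℕ} (q : Fin m → {s // s ∈ S}) (a : Fin 2 → ℕ) : ℕ :=
  (univ.filter fun l => (p (q l) - (q l : ℕ) + a 0).Prime ∧ (p (q l) - (q l : ℕ) + a 1).Prime).card

open Classical in
/-- The proportion of the `q ∈ S` for which neither `p_q - q + a_0` nor `p_q - q + a_1` has a prime factor `≤ z`, divided by
the square of the product of the `1 - 1 / t` over the primes `t ≤ z`. -/
noncomputable def sieved (S : Finset ℕ) (z : ℕ) (a : Fin 2 → ℕ) : ℝ :=
  (S.filter fun q => ∀ t ≤ z, t.Prime → ¬ t ∣ p q - q + a 0 ∧ ¬ t ∣ p q - q + a 1).card / S.card /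
    (∏ t ∈ (Icc 1 z).filter Nat.Prime, (1 - 1 / (t : ℝ))) ^ 2

/-- The Poisson probabilities. -/
noncomputable def poisson (lam : ℝ) (j : ℕ) : ℝ := Real.exp (-lam) * lam ^ j / j.factorial

/-- The Poisson law for the lists of `m` members of `S`, the pairs of constants from `J`: for all lists `q_1, ..., q_m` of
members of `S`, with at most `η |S| ^ m` exceptions, for all `j ≥ 0` simultaneously, the number of the `a ∈ J` for which
exactly `j` of the `l ≤ m` make `p_q - q + a_0` and `p_q - q + a_1`, `q = q_l`, primes differs by at most `ε |J|` from the sum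
over `a ∈ J` of the Poisson probabilities `exp (- λ_a) λ_a ^ j / j!`, `λ_a = m (sieved S z a) / (log a_0 log a_1)`. -/
def Law (S : Finset ℕ) (J : Finset (Fin 2 → ℕ)) (z m : ℕ) (ε η : ℝ) : Prop :=
  open Classical in
  (((univ : Finset (Fin m → {s // s ∈ S})).filter fun q => ¬ ∀ j : ℕ,
    |((J.filter fun a => hits q a = j).card : ℝ) -
        ∑ a ∈ J, poisson (m * (sieved S z a / (Real.log (a 0) * Real.log (a 1)))) j| ≤
      ε * J.card).card : ℝ) ≤ η * (S.card : ℝ) ^ m

open Classical in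
/-- Let `T ≥ 0`, `B ≥ 1` and `Λ, ε > 0`. There are `C`, `B₀`, `M₀` and `δ > 0` such that for every `E` the following holds for
all large `N`, with `L = log N`, all `z` between `L ^ B₀` and `L ^ E`, all `n` with `N ^ (1/3) L ^ C ≤ n ≤ N / L ^ C`, all
sets `J` of at least `N ^ 2 / B` pairs of integers in `[1, N]`, and all `m` with `M₀ ≤ m ≤ Λ L ^ 2`: the Poisson law holds up
to `exp (- δ L ^ 2) |S| ^ m` exceptions for every set `S ⊆ [2, 2 n]` of at least `n / L ^ T` integers `q`; in particular for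
the set of the primes `φ(k) + φ(n - k) / 2 + 1`, `1 ≤ k < n - 2`, if it has so many members. -/
theorem result (T B : ℕ) (hB : 1 ≤ B) (Λ ε : ℝ) (hΛ : 0 < Λ) (hε : 0 < ε) :
    ∃ (C B₀ M₀ : ℕ) (δ : ℝ), 0 < δ ∧ ∀ E : ℕ, ∃ N₀ : ℕ, ∀ N : ℕ, N₀ ≤ N → ∀ z : ℕ,
    Real.log N ^ B₀ ≤ z → (z : ℝ) ≤ Real.log N ^ E → ∀ n : ℕ,
    (N : ℝ) ^ (1 / 3 : ℝ) * Real.log N ^ C ≤ n → n * Real.log N ^ C ≤ N →
    ∀ J : Finset (Fin 2 → ℕ), J ⊆ Fintype.piFinset (fun _ : Fin 2 => Icc 1 N) → N ^ 2 ≤ B * J.card →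
    ∀ m : ℕ, M₀ ≤ m → (m : ℝ) ≤ Λ * Real.log N ^ 2 →
    (∀ S : Finset ℕ, S ⊆ Icc 2 (2 * n) → (n : ℝ) ≤ Real.log N ^ T * S.card →
      Law S J z m ε (Real.exp (-(δ * Real.log N ^ 2)))) ∧
    ((n : ℝ) ≤ Real.log N ^ T * (sums n).card → Law (sums n) J z m ε (Real.exp (-(δ * Real.log N ^ 2)))) := by
  obtain ⟨C, B₀, M₀, δ, hδ, h⟩ := Pool.Agent.Run7.h524.MG.app_totient (T + 1) B hB Λ hΛ ε hε
  refine ⟨C + 1, B₀, M₀, δ, hδ, fun E => ?_⟩
  obtain ⟨N₀, h⟩ := h E
  obtain ⟨N₁, hN₁⟩ := Filter.eventually_atTop.1 (Pool.Agent.N384.MQ.ev_log_ge 2)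
  refine ⟨N₀ + N₁, fun N hN z hz1 hz2 n hn1 hn2 J hJ hJB m hm1 hm2 => ?_⟩
  have hL := hN₁ N (by omega)
  have hgen : ∀ S : Finset ℕ, S ⊆ Icc 2 (2 * n) → (n : ℝ) ≤ Real.log N ^ T * S.card →
      Law S J z m ε (Real.exp (-(δ * Real.log N ^ 2))) := by
    intro S hS hSn
    have hL1 : (1 : ℝ) ≤ Real.log N := by linarith
    have h1 := h N (by omega) z hz1 hz2 (2 * n) (by
      refine le_trans (mul_le_mul_of_nonneg_left (pow_le_pow_right₀ hL1 (Nat.le_succ C)) (by positivity)) (le_trans hn1 ?_)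
      push_cast
      linarith [Nat.cast_nonneg (α := ℝ) n]) (by
      refine le_trans ?_ hn2
      push_cast
      calc 2 * (n : ℝ) * Real.log N ^ C ≤ Real.log N * n * Real.log N ^ C := by gcongr
        _ = n * Real.log N ^ (C + 1) := by ring) S hS (by
      push_cast
      calc 2 * (n : ℝ) ≤ Real.log N * (Real.log N ^ T * S.card) := mul_le_mul hL hSn (Nat.cast_nonneg _) (by positivity)
        _ = Real.log N ^ (T + 1) * S.card := by ring) J hJ hJB m hm1 hm2
    unfold Law
    have hs : ∀ a : Fin 2 → ℕ, sieved S z a = Pool.Agent.Run7.h524.MG.sv Pool.Agent.Run7.h524.MG.v2 S z a := by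
      intro a
      unfold sieved Pool.Agent.Run7.h524.MG.sv Pool.Agent.Run7.h524.MG.v2
      have e : ∀ q : ℕ, (∀ t ≤ z, t.Prime → ¬ t ∣ p q - q + a 0 ∧ ¬ t ∣ p q - q + a 1) ↔
          ∀ i : Fin 2, ∀ t ≤ z, t.Prime → ¬ t ∣ Pool.Agent.Run7.h524.MG.pn q - q + a i := by
        intro q
        rw [Fin.forall_fin_two]
        constructor
        · intro h
          exact ⟨fun t ht1 ht2 => (h t ht1 ht2).1, fun t ht1 ht2 => (h t ht1 ht2).2⟩
        · intro h t ht1 ht2
          exact ⟨h.1 t ht1 ht2, h.2 t ht1 ht2⟩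
      simp only [e]
    have hp : ∀ a : Fin 2 → ℕ, Real.log (a 0) * Real.log (a 1) = ∏ i, Real.log (a i) := by
      intro a
      rw [Fin.prod_univ_two]
    refine le_trans (Nat.cast_le.2 (card_le_card fun ω hω => ?_)) h1
    rw [mem_filter] at hω ⊢
    refine ⟨mem_univ _, fun h3 => hω.2 fun j => ?_⟩
    have h4 := h3 j
    unfold Pool.Agent.Run7.h524.MG.pw at h4
    unfold poisson hits
    simp only [hs, hp]
    simp only [Fin.forall_fin_two] at h4
    exact h4
  refine ⟨hgen, fun h2 => hgen (sums n) (fun q hq => ?_) h2⟩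
  unfold sums at hq
  rw [mem_filter, mem_image] at hq
  obtain ⟨⟨k, hk, rfl⟩, hq⟩ := hq
  rw [mem_Ico] at hk
  rw [mem_Icc]
  have h3 := Nat.totient_le k
  have h4 := Nat.totient_le (n - k)
  have := hq.two_le
  omega

end Pool.Agent.Results.MP_61a569_nt.PoissonLawTotientSums
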