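import Pool.Agent.Run7.h90.AU.QuadM

set_option autoImplicit false

/-!
# The numbers `k`, `n - k` and `q(n, k)` for `k` in thin families of residues

For `n = 2 h` and primes `k = 2 t + 1`, `n - k` one has `q(n, k) = φ(k) + φ(n - k) / 2 + 1 = h + t`. Let `p` be a large prime
and let `(v_i)`, `i ∈ s`, be a family of residues modulo `p` whose exponential sums
`∑ e(ξ v_i / p)`, `ξ ≠ 0`, are at most `p ^ (-ε) |s|`; the family may be very thin. Examples: the values of a sparse
polynomial of arbitrary degree on a subgroup of order `p ^ η`, the values `c_1 g_1 ^ n + ... + c_k g_k ^ n`, `n < N`,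
`N ≥ p ^ η`. The theorem is about the integers `t` congruent to a member of the family modulo `p` in an interval of length
`L ≥ p ^ (1 - δ)`: uniformly in all `h`, the numbers `k = 2 t + 1`, `n - k`, `h + t` are simultaneously free of
small prime factors with the expected frequency, which is at least `c / (log z) ^ 3`; they are simultaneously almost primes
for at least half of the expected number of the `t` and primes for at most twice this number.

Proof: bound of Bourgain, Glibichuk and Konyagin in the form for recurrences and monomials (`Agent/Run7/h823/BK9`);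
equidistribution in the residue classes modulo all integers up to `p ^ δ` and the fundamental lemma of the sieve
(`Agent/Run7/h90/AU`).
-/

namespace Pool.Agent.Results.MP_61a569_nt.TotientSumsInSparseFamilies

open Finset Filter Topology
open Pool.Agent.Run7.h90.AU (TotientLaw totientDensity SparseSmall RecurrencesSmall)

theorem result : (∀ h t : ℕ, 2 * t + 1 < 2 * h → (2 * t + 1).Prime → (2 * h - (2 * t + 1)).Prime →
      (2 * t + 1).totient + (2 * h - (2 * t + 1)).totient / 2 + 1 = h + t) ∧
    TotientLaw ∧
    (∃ c : ℝ, 0 < c ∧ ∀ h z : ℕ, 2 ≤ z → c / Real.log z ^ 3 ≤ totientDensity h z) ∧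
    SparseSmall ∧ RecurrencesSmall :=
  ⟨fun _ _ ht h1 h2 => Pool.Agent.Run7.h90.AU.totient_value ht h1 h2,
    Pool.Agent.Run7.h90.AU.totient_law, Pool.Agent.Run7.h90.AU.totientDensity_low,
    Pool.Agent.Run7.h90.AU.sparse_small, Pool.Agent.Run7.h90.AU.rec_small⟩

end Pool.Agent.Results.MP_61a569_nt.TotientSumsInSparseFamilies
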